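import Pool.Agent.Q233.SG.Star

/-!
# The punctured space of mm-spaces is contractible, in both topologies
-/

set_option autoImplicit false

namespace Pool.Agent.Results.MP_de432b_gt.PuncturedSpaceContractible

open Q233.SG

/-- The space of the non-trivial mm-spaces is contractible, for the box and for the concentration
topology. -/
theorem result : ContractibleSpace (MMs Kind.box) ∧ ContractibleSpace (MMs Kind.conc) :=
  ⟨contractible_MMs Kind.box, contractible_MMs Kind.conc⟩

end Pool.Agent.Results.MP_de432b_gt.PuncturedSpaceContractible
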